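import Mathlib

/-!
# MP_7a8221_co: rectangles tiled by L-tetrominoes of one orientation class

The proposed criterion (one side divisible by 4, the other even) is wrong: the `5 × 8` rectangle
is tiled by L-tetrominoes of one orientation class.  We prove the complete correct criterion.
-/

namespace Pool.Agent.Results.MP_7a8221_co.OneClassRectangles

open Finset

/-- Quarter turn of the plane about the centre of the cell `(0, 0)`, acting on cells; the cell
`[i, i + 1] × [j, j + 1]` is written `(i, j)`. -/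
def rot (p : ℤ × ℤ) : ℤ × ℤ := (-p.2, p.1)

/-- Reflection of the plane in the vertical line through the centre of the cell `(0, 0)`, acting
on cells. -/
def mirror (p : ℤ × ℤ) : ℤ × ℤ := (-p.1, p.2)

/-- The L-tetromino: a row of three cells with one extra cell above one end cell. -/
def baseL : Finset (ℤ × ℤ) := {(0, 0), (1, 0), (2, 0), (2, 1)}

/-- `t` is a copy of the L-tetromino in the orientation class `c`: a translate of a rotated copy
of `baseL` (for `c = false`) or of its mirror image (for `c = true`). -/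
def IsCopy (c : Bool) (t : Finset (ℤ × ℤ)) : Prop :=
  ∃ (k : ℕ) (v : ℤ × ℤ),
    t = (if c then baseL.image mirror else baseL).image (fun p => rot^[k] p + v)

/-- The `m × n` rectangle, as a set of cells. -/
noncomputable def rect (m n : ℕ) : Finset (ℤ × ℤ) := Finset.Ico (0 : ℤ) m ×ˢ Finset.Ico (0 : ℤ) n

/-- `T` is a partition of the cells of `R` into copies of the L-tetromino that all lie in the
orientation class `c`. -/
def IsTiling (c : Bool) (R : Finset (ℤ × ℤ)) (T : Finset (Finset (ℤ × ℤ))) : Prop :=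
  (∀ t ∈ T, IsCopy c t) ∧ (∀ s ∈ T, ∀ t ∈ T, s ≠ t → Disjoint s t) ∧ T.biUnion id = R

/-- The `m × n` rectangle has a tiling by L-tetrominoes of the same orientation. -/
def HasOneClassTiling (m n : ℕ) : Prop :=
  ∃ (c : Bool) (T : Finset (Finset (ℤ × ℤ))), IsTiling c (rect m n) T

/-! ### Explicit shapes -/

/-- The eight shapes, as lists. -/
def shape (c : Bool) (k : Fin 4) : List (ℤ × ℤ) :=
  match c, k with
  | false, 0 => [(0, 0), (1, 0), (2, 0), (2, 1)]
  | false, 1 => [(0, 0), (0, 1), (0, 2), (-1, 2)]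
  | false, 2 => [(0, 0), (-1, 0), (-2, 0), (-2, -1)]
  | false, 3 => [(0, 0), (0, -1), (0, -2), (1, -2)]
  | true, 0 => [(0, 0), (-1, 0), (-2, 0), (-2, 1)]
  | true, 1 => [(0, 0), (0, -1), (0, -2), (-1, -2)]
  | true, 2 => [(0, 0), (1, 0), (2, 0), (2, -1)]
  | true, 3 => [(0, 0), (0, 1), (0, 2), (1, 2)]

lemma rot_four : rot^[4] = id := by
  funext p
  simp [rot, Function.iterate_succ]

lemma rot_mod (k : ℕ) : rot^[k] = rot^[k % 4] := by
  conv_lhs => rw [← Nat.mod_add_div k 4]
  rw [Function.iterate_add, Function.iterate_mul, rot_four]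
  simp

lemma shape_eq (c : Bool) (k : Fin 4) :
    (shape c k).toFinset = (if c then baseL.image mirror else baseL).image (rot^[(k : ℕ)]) := by
  revert c k
  decide

lemma isCopy_iff (c : Bool) (t : Finset (ℤ × ℤ)) :
    IsCopy c t ↔ ∃ (k : Fin 4) (v : ℤ × ℤ), t = ((shape c k).map (· + v)).toFinset := by
  have key : ∀ (k : Fin 4) (v : ℤ × ℤ), ((shape c k).map (· + v)).toFinset
      = (if c then baseL.image mirror else baseL).image (fun p => rot^[(k : ℕ)] p + v) := by
    intro k v
    have h1 : ((shape c k).map (· + v)).toFinset = ((shape c k).toFinset).image (· + v) := by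
      ext q
      simp only [List.mem_toFinset, List.mem_map, Finset.mem_image]
    rw [h1, shape_eq, Finset.image_image]
    rfl
  constructor
  · rintro ⟨k, v, rfl⟩
    refine ⟨⟨k % 4, Nat.mod_lt _ (by norm_num)⟩, v, ?_⟩
    rw [key, rot_mod k]
  · rintro ⟨k, v, rfl⟩
    exact ⟨k, v, key k v⟩

/-! ### Building tilings -/

/-- `R` has a tiling in the class `false`. -/
def Tileable (R : Finset (ℤ × ℤ)) : Prop := ∃ T, IsTiling false R T

lemma tileable_union {R S : Finset (ℤ × ℤ)} (hR : Tileable R) (hS : Tileable S)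
    (hd : Disjoint R S) : Tileable (R ∪ S) := by
  classical
  obtain ⟨T, hT1, hT2, hT3⟩ := hR
  obtain ⟨U, hU1, hU2, hU3⟩ := hS
  have hTR : ∀ t ∈ T, t ⊆ R := by
    intro t ht; rw [← hT3]; exact Finset.subset_biUnion_of_mem id ht
  have hUS : ∀ t ∈ U, t ⊆ S := by
    intro t ht; rw [← hU3]; exact Finset.subset_biUnion_of_mem id ht
  refine ⟨T ∪ U, ?_, ?_, ?_⟩
  · intro t ht
    rcases Finset.mem_union.1 ht with h | h
    · exact hT1 t h
    · exact hU1 t h
  · intro s hs t ht hst
    rcases Finset.mem_union.1 hs with h | h <;> rcases Finset.mem_union.1 ht with h' | h'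
    · exact hT2 s h t h' hst
    · exact Finset.disjoint_of_subset_left (hTR s h) (Finset.disjoint_of_subset_right (hUS t h') hd)
    · exact (Finset.disjoint_of_subset_left (hTR t h')
        (Finset.disjoint_of_subset_right (hUS s h) hd)).symm
    · exact hU2 s h t h' hst
  · rw [Finset.union_biUnion, hT3, hU3]

lemma tileable_translate {R : Finset (ℤ × ℤ)} (hR : Tileable R) (w : ℤ × ℤ) :
    Tileable (R.image (· + w)) := by
  classical
  obtain ⟨T, hT1, hT2, hT3⟩ := hR
  refine ⟨T.image (fun t => t.image (· + w)), ?_, ?_, ?_⟩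
  · intro t ht
    obtain ⟨s, hs, rfl⟩ := Finset.mem_image.1 ht
    obtain ⟨k, v, rfl⟩ := hT1 s hs
    refine ⟨k, v + w, ?_⟩
    rw [Finset.image_image]
    congr 1
    funext p
    simp [add_assoc]
  · intro s hs t ht hst
    obtain ⟨s', hs', rfl⟩ := Finset.mem_image.1 hs
    obtain ⟨t', ht', rfl⟩ := Finset.mem_image.1 ht
    have hne : s' ≠ t' := by
      rintro rfl; exact hst rfl
    exact (Finset.disjoint_image (add_left_injective w)).2 (hT2 s' hs' t' ht' hne)
  · rw [← hT3]
    ext q
    simp only [Finset.mem_biUnion, Finset.mem_image, id]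
    constructor
    · rintro ⟨_, ⟨t, ht, rfl⟩, hq⟩
      obtain ⟨p, hp, rfl⟩ := Finset.mem_image.1 hq
      exact ⟨p, ⟨t, ht, hp⟩, rfl⟩
    · rintro ⟨p, ⟨t, ht, hp⟩, rfl⟩
      exact ⟨_, ⟨t, ht, rfl⟩, Finset.mem_image.2 ⟨p, hp, rfl⟩⟩

lemma tileable_zero_left (n : ℕ) : Tileable (rect 0 n) := by
  refine ⟨∅, by simp, by simp, ?_⟩
  simp [rect]

lemma tileable_zero_right (m : ℕ) : Tileable (rect m 0) := by
  refine ⟨∅, by simp, by simp, ?_⟩
  simp [rect]

lemma rect_add_left (m m' n : ℕ) :
    rect (m + m') n = rect m n ∪ (rect m' n).image (· + ((m : ℤ), (0 : ℤ))) := by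
  ext ⟨x, y⟩
  simp only [rect, Finset.mem_product, Finset.mem_Ico, Finset.mem_union, Finset.mem_image,
    Prod.exists, Prod.mk_add_mk, Prod.mk.injEq]
  constructor
  · intro h
    by_cases hx : x < m
    · left; push_cast at h; omega
    · right
      refine ⟨x - m, y, ?_, by ring, by ring⟩
      push_cast at h; omega
  · rintro (h | ⟨a, b, h, h1, h2⟩)
    · push_cast; omega
    · push_cast; omega

lemma rect_add_right (m n n' : ℕ) :
    rect m (n + n') = rect m n ∪ (rect m n').image (· + ((0 : ℤ), (n : ℤ))) := by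
  ext ⟨x, y⟩
  simp only [rect, Finset.mem_product, Finset.mem_Ico, Finset.mem_union, Finset.mem_image,
    Prod.exists, Prod.mk_add_mk, Prod.mk.injEq]
  constructor
  · intro h
    by_cases hx : y < n
    · left; push_cast at h; omega
    · right
      refine ⟨x, y - n, ?_, by ring, by ring⟩
      push_cast at h; omega
  · rintro (h | ⟨a, b, h, h1, h2⟩)
    · push_cast; omega
    · push_cast; omega

lemma tileable_add_left {m m' n : ℕ} (h : Tileable (rect m n)) (h' : Tileable (rect m' n)) :
    Tileable (rect (m + m') n) := by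
  rw [rect_add_left]
  refine tileable_union h (tileable_translate h' _) ?_
  rw [Finset.disjoint_left]
  rintro ⟨x, y⟩ h1 h2
  simp only [rect, Finset.mem_product, Finset.mem_Ico, Finset.mem_image,
    Prod.exists, Prod.mk_add_mk, Prod.mk.injEq] at h1 h2
  obtain ⟨a, b, h3, h4, h5⟩ := h2
  omega

lemma tileable_add_right {m n n' : ℕ} (h : Tileable (rect m n)) (h' : Tileable (rect m n')) :
    Tileable (rect m (n + n')) := by
  rw [rect_add_right]
  refine tileable_union h (tileable_translate h' _) ?_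
  rw [Finset.disjoint_left]
  rintro ⟨x, y⟩ h1 h2
  simp only [rect, Finset.mem_product, Finset.mem_Ico, Finset.mem_image,
    Prod.exists, Prod.mk_add_mk, Prod.mk.injEq] at h1 h2
  obtain ⟨a, b, h3, h4, h5⟩ := h2
  omega

lemma tileable_mul {m n : ℕ} (h : Tileable (rect m n)) (a b : ℕ) :
    Tileable (rect (m * a) (n * b)) := by
  have h1 : ∀ a, Tileable (rect (m * a) n) := by
    intro a
    induction a with
    | zero => exact tileable_zero_left n
    | succ a ih => rw [Nat.mul_succ]; exact tileable_add_left ih h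
  induction b with
  | zero => exact tileable_zero_right _
  | succ b ih => rw [Nat.mul_succ]; exact tileable_add_right ih (h1 a)

/-- Checking an explicit tiling given by a list of placements. -/
lemma tileable_of_list (R : Finset (ℤ × ℤ)) (l : List (Fin 4 × (ℤ × ℤ)))
    (h1 : (l.map (fun kv => ((shape false kv.1).map (· + kv.2)).toFinset)).Pairwise Disjoint)
    (h2 : ((l.map (fun kv => ((shape false kv.1).map (· + kv.2)))).flatten).toFinset = R) :
    Tileable R := by
  classical
  refine ⟨(l.map (fun kv => ((shape false kv.1).map (· + kv.2)).toFinset)).toFinset, ?_, ?_, ?_⟩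
  · intro t ht
    rw [List.mem_toFinset, List.mem_map] at ht
    obtain ⟨kv, _, rfl⟩ := ht
    exact (isCopy_iff _ _).2 ⟨kv.1, kv.2, rfl⟩
  · intro s hs t ht hst
    rw [List.mem_toFinset] at hs ht
    have : Std.Symm (Disjoint : Finset (ℤ × ℤ) → Finset (ℤ × ℤ) → Prop) :=
      ⟨fun _ _ h => Disjoint.symm h⟩
    exact h1.forall hs ht hst
  · rw [← h2]
    ext q
    simp only [Finset.mem_biUnion, List.mem_toFinset, List.mem_map, id, List.mem_flatten]
    constructor
    · rintro ⟨_, ⟨kv, hkv, rfl⟩, hq⟩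
      exact ⟨_, ⟨kv, hkv, rfl⟩, by simpa using hq⟩
    · rintro ⟨_, ⟨kv, hkv, rfl⟩, hq⟩
      exact ⟨_, ⟨kv, hkv, rfl⟩, by simpa using hq⟩

lemma rect_eq (m n : ℕ) : rect m n =
    ((List.range m).flatMap
      (fun i : ℕ => (List.range n).map (fun j : ℕ => ((i : ℤ), (j : ℤ))))).toFinset := by
  ext ⟨x, y⟩
  simp only [rect, Finset.mem_product, Finset.mem_Ico, List.mem_toFinset, List.mem_flatMap,
    List.mem_map, List.mem_range, Prod.mk.injEq]
  constructor
  · rintro ⟨⟨h1, h2⟩, h3, h4⟩
    exact ⟨x.toNat, by omega, y.toNat, by omega, by omega, by omega⟩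
  · rintro ⟨i, hi, j, hj, rfl, rfl⟩
    omega

lemma tileable_2_4 : Tileable (rect 2 4) := by
  rw [rect_eq]
  exact tileable_of_list _ [(3, (0, 2)), (1, (1, 1))] (by decide) (by decide)

lemma tileable_4_2 : Tileable (rect 4 2) := by
  rw [rect_eq]
  exact tileable_of_list _ [(2, (2, 1)), (0, (1, 0))] (by decide) (by decide)

lemma tileable_5_8 : Tileable (rect 5 8) := by
  rw [rect_eq]
  exact tileable_of_list _ [(2, (2, 1)), (0, (1, 0)), (1, (4, 0)), (3, (0, 4)), (2, (4, 3)),
    (1, (1, 3)), (1, (2, 4)), (3, (3, 6)), (1, (4, 5)), (2, (2, 7))] (by decide) (by decide)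

lemma tileable_8_5 : Tileable (rect 8 5) := by
  rw [rect_eq]
  exact tileable_of_list _ [(0, (0, 0)), (1, (3, 0)), (2, (6, 1)), (0, (5, 0)), (3, (0, 3)),
    (1, (1, 2)), (0, (4, 2)), (1, (7, 2)), (2, (4, 4)), (0, (3, 3))] (by decide) (by decide)

/-! ### The divisibility condition -/

/-- Sign by the parity of the first coordinate. -/
def f1 (p : ℤ × ℤ) : ℤ := if p.1 % 2 = 0 then 1 else -1

/-- Sign by the parity of the second coordinate. -/
def f2 (p : ℤ × ℤ) : ℤ := if p.2 % 2 = 0 then 1 else -1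

lemma shape_nodup (c : Bool) (k : Fin 4) : (shape c k).Nodup := by
  revert c k; decide

lemma shape_length (c : Bool) (k : Fin 4) : (shape c k).length = 4 := by
  revert c k; decide

lemma sum_copy (c : Bool) (k : Fin 4) (v : ℤ × ℤ) (f : ℤ × ℤ → ℤ) :
    ∑ p ∈ ((shape c k).map (· + v)).toFinset, f p = ((shape c k).map (fun p => f (p + v))).sum := by
  have hnd : ((shape c k).map (· + v)).Nodup := (shape_nodup c k).map (add_left_injective v)
  rw [List.sum_toFinset f hnd, List.map_map]
  rfl

lemma card_copy {c : Bool} {t : Finset (ℤ × ℤ)} (h : IsCopy c t) : t.card = 4 := by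
  obtain ⟨k, v, rfl⟩ := (isCopy_iff c t).1 h
  rw [List.toFinset_card_of_nodup ((shape_nodup c k).map (add_left_injective v)), List.length_map]
  exact shape_length c k

lemma sum_f1 {c : Bool} {t : Finset (ℤ × ℤ)} (h : IsCopy c t) : ∃ a : ℤ, ∑ p ∈ t, f1 p = 2 + 4 * a := by
  obtain ⟨k, v, rfl⟩ := (isCopy_iff c t).1 h
  rw [sum_copy]
  refine ⟨(((shape c k).map (fun p => f1 (p + v))).sum - 2) / 4, ?_⟩
  obtain ⟨x, y⟩ := v
  rcases c <;> fin_cases k <;> simp [shape, f1] <;> split_ifs <;> omega

lemma sum_f2 {c : Bool} {t : Finset (ℤ × ℤ)} (h : IsCopy c t) : ∃ a : ℤ, ∑ p ∈ t, f2 p = 2 + 4 * a := by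
  obtain ⟨k, v, rfl⟩ := (isCopy_iff c t).1 h
  rw [sum_copy]
  refine ⟨(((shape c k).map (fun p => f2 (p + v))).sum - 2) / 4, ?_⟩
  obtain ⟨x, y⟩ := v
  rcases c <;> fin_cases k <;> simp [shape, f2] <;> split_ifs <;> omega

lemma even_card_of_sum {c : Bool} {R : Finset (ℤ × ℤ)} {T : Finset (Finset (ℤ × ℤ))}
    (hT : IsTiling c R T) (f : ℤ × ℤ → ℤ)
    (hf : ∀ t, IsCopy c t → ∃ a : ℤ, ∑ p ∈ t, f p = 2 + 4 * a) (h0 : ∑ p ∈ R, f p = 0) :
    2 ∣ T.card := by
  classical
  obtain ⟨hT1, hT2, hT3⟩ := hT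
  have hsum : ∑ p ∈ R, f p = ∑ t ∈ T, ∑ p ∈ t, f p := by
    rw [← hT3, Finset.sum_biUnion]
    · rfl
    · intro s hs t ht hst
      exact hT2 s hs t ht hst
  choose! a ha using hf
  have h1 : ∑ t ∈ T, ∑ p ∈ t, f p = ∑ t ∈ T, (2 + 4 * a t) :=
    Finset.sum_congr rfl (fun t ht => ha t (hT1 t ht))
  rw [h0, h1, Finset.sum_add_distrib, ← Finset.mul_sum] at hsum
  simp only [Finset.sum_const, nsmul_eq_mul] at hsum
  omega

lemma card_tiling {c : Bool} {R : Finset (ℤ × ℤ)} {T : Finset (Finset (ℤ × ℤ))}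
    (hT : IsTiling c R T) : R.card = 4 * T.card := by
  classical
  obtain ⟨hT1, hT2, hT3⟩ := hT
  rw [← hT3, Finset.card_biUnion]
  · simp only [id]
    rw [Finset.sum_congr rfl (fun t ht => card_copy (hT1 t ht))]
    simp [mul_comm]
  · intro s hs t ht hst
    exact hT2 s hs t ht hst

lemma sum_sign (j : ℕ) : ∑ x ∈ Finset.Ico (0 : ℤ) (2 * j : ℕ), (if x % 2 = 0 then (1 : ℤ) else -1) = 0 := by
  induction j with
  | zero => simp
  | succ j ih =>
    have h : Finset.Ico (0 : ℤ) (2 * (j + 1) : ℕ)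
        = insert (2 * (j : ℤ) + 1) (insert (2 * (j : ℤ)) (Finset.Ico (0 : ℤ) (2 * j : ℕ))) := by
      ext x; simp only [Finset.mem_Ico, Finset.mem_insert]; push_cast; omega
    rw [h, Finset.sum_insert, Finset.sum_insert, ih]
    · have h1 : ¬ ((2 * (j : ℤ) + 1) % 2 = 0) := by omega
      have h2 : (2 * (j : ℤ)) % 2 = 0 := by omega
      rw [if_neg h1, if_pos h2]; norm_num
    · simp
    · simp only [Finset.mem_insert, Finset.mem_Ico]; push_cast; omega

lemma sum_rect_f1 (j n : ℕ) : ∑ p ∈ rect (2 * j) n, f1 p = 0 := by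
  unfold rect
  rw [Finset.sum_product_right]
  refine Finset.sum_eq_zero (fun y _ => ?_)
  exact sum_sign j

lemma sum_rect_f2 (m j : ℕ) : ∑ p ∈ rect m (2 * j), f2 p = 0 := by
  unfold rect
  rw [Finset.sum_product]
  refine Finset.sum_eq_zero (fun y _ => ?_)
  exact sum_sign j

lemma card_rect (m n : ℕ) : (rect m n).card = m * n := by
  simp [rect]

lemma eight_dvd {m n : ℕ} (h : HasOneClassTiling m n) : 8 ∣ m * n := by
  obtain ⟨c, T, hT⟩ := h
  have hcard := card_tiling hT
  rw [card_rect] at hcard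
  have h2 : 2 ∣ T.card := by
    have hev : 2 ∣ m * n := ⟨2 * T.card, by rw [hcard]; ring⟩
    rcases (Nat.prime_two.dvd_mul).1 hev with ⟨j, hj⟩ | ⟨j, hj⟩
    · subst hj
      exact even_card_of_sum hT f1 (fun t ht => sum_f1 ht) (sum_rect_f1 j n)
    · subst hj
      exact even_card_of_sum hT f2 (fun t ht => sum_f2 ht) (sum_rect_f2 m j)
  obtain ⟨q, hq⟩ := h2
  exact ⟨q, by rw [hcard, hq]; ring⟩

/-! ### No tiling when a side is 1 or 3 -/

/-- The cells of the copy of shape `k` whose cell `a` is moved to `p`. -/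
def placed (c : Bool) (k : Fin 4) (a p : ℤ × ℤ) : List (ℤ × ℤ) :=
  (shape c k).map (· + (p - a))

/-- Exhaustive search: `refute c inB L occ = true` certifies that the occupied cells `occ` cannot
be extended to a tiling of a region containing the cells in `L` and contained in `inB`. -/
def refute (c : Bool) (inB : ℤ × ℤ → Bool) : List (ℤ × ℤ) → List (ℤ × ℤ) → Bool
  | [], _ => false
  | p :: L, occ =>
    if p ∈ occ then refute c inB L occ
    else (List.finRange 4).all (fun k => (shape c k).all (fun a =>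
      if (placed c k a p).all (fun q => inB q && decide (q ∉ occ)) then
        refute c inB L (placed c k a p ++ occ)
      else true))

lemma refute_sound {c : Bool} {inB : ℤ × ℤ → Bool} {R : Finset (ℤ × ℤ)}
    {T : Finset (Finset (ℤ × ℤ))} (hT : IsTiling c R T) (hB : ∀ p ∈ R, inB p = true) :
    ∀ (L occ : List (ℤ × ℤ)), (∀ p ∈ L, p ∈ R) →
      (∃ S ⊆ T, ∀ q, q ∈ occ ↔ q ∈ S.biUnion id) → refute c inB L occ = true → False := by
  classical
  obtain ⟨hT1, hT2, hT3⟩ := hT
  intro L
  induction L with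
  | nil => intro occ _ _ h; simp [refute] at h
  | cons p L ih =>
    intro occ hL hS h
    have hL' : ∀ q ∈ L, q ∈ R := fun q hq => hL q (List.mem_cons_of_mem _ hq)
    rw [refute] at h
    by_cases hp : p ∈ occ
    · rw [if_pos hp] at h
      exact ih occ hL' hS h
    · rw [if_neg hp] at h
      obtain ⟨S, hST, hSocc⟩ := hS
      have hpR : p ∈ R := hL p List.mem_cons_self
      have hpU := hpR
      rw [← hT3, Finset.mem_biUnion] at hpU
      obtain ⟨t, htT, hpt⟩ := hpU
      simp only [id] at hpt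
      have htS : t ∉ S := by
        intro htS
        exact hp ((hSocc p).2 (Finset.mem_biUnion.2 ⟨t, htS, hpt⟩))
      obtain ⟨k, v, htv⟩ := (isCopy_iff c t).1 (hT1 t htT)
      have hpt' := hpt
      rw [htv, List.mem_toFinset, List.mem_map] at hpt'
      obtain ⟨a, ha, hav⟩ := hpt'
      have hv : v = p - a := by rw [← hav]; simp
      have hplaced : ∀ q, q ∈ placed c k a p ↔ q ∈ t := by
        intro q
        rw [htv, List.mem_toFinset, placed, hv]
      rw [List.all_eq_true] at h
      have h1 := h k (List.mem_finRange k)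
      rw [List.all_eq_true] at h1
      have h2 := h1 a ha
      have hall : (placed c k a p).all (fun q => inB q && decide (q ∉ occ)) = true := by
        rw [List.all_eq_true]
        intro q hq
        have hqt := (hplaced q).1 hq
        have hqR : q ∈ R := by
          rw [← hT3]; exact Finset.mem_biUnion.2 ⟨t, htT, hqt⟩
        rw [Bool.and_eq_true, decide_eq_true_eq]
        refine ⟨hB q hqR, ?_⟩
        intro hqo
        obtain ⟨s, hsS, hqs⟩ := Finset.mem_biUnion.1 ((hSocc q).1 hqo)
        have hst : s ≠ t := by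
          rintro rfl; exact htS hsS
        exact (Finset.disjoint_left.1 (hT2 s (hST hsS) t htT hst)) hqs hqt
      rw [if_pos hall] at h2
      refine ih _ hL' ⟨insert t S, ?_, ?_⟩ h2
      · intro s hs
        rcases Finset.mem_insert.1 hs with rfl | hs
        · exact htT
        · exact hST hs
      · intro q
        rw [List.mem_append, hplaced q, hSocc q, Finset.biUnion_insert, Finset.mem_union]
        rfl

/-- Bounding strips for rectangles with a short side. -/
def strip1 (a : ℤ) (p : ℤ × ℤ) : Bool := decide (0 ≤ p.1 ∧ p.1 < a ∧ 0 ≤ p.2)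

/-- Bounding strips for rectangles with a short side. -/
def strip2 (a : ℤ) (p : ℤ × ℤ) : Bool := decide (0 ≤ p.2 ∧ p.2 < a ∧ 0 ≤ p.1)

/-- Cells of the first six rows of a strip of width `a`. -/
def cells1 (a : ℕ) : List (ℤ × ℤ) :=
  (List.range 6).flatMap (fun j : ℕ => (List.range a).map (fun i : ℕ => ((i : ℤ), (j : ℤ))))

/-- Cells of the first six columns of a strip of height `a`. -/
def cells2 (a : ℕ) : List (ℤ × ℤ) :=
  (List.range 6).flatMap (fun j : ℕ => (List.range a).map (fun i : ℕ => ((j : ℤ), (i : ℤ))))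

lemma refute_strip1 (c : Bool) : refute c (strip1 1) (cells1 1) [] = true ∧
    refute c (strip1 3) (cells1 3) [] = true := by
  revert c; decide

lemma refute_strip2 (c : Bool) : refute c (strip2 1) (cells2 1) [] = true ∧
    refute c (strip2 3) (cells2 3) [] = true := by
  revert c; decide

lemma not_left {a n : ℕ} (ha : a = 1 ∨ a = 3) (hn : 6 ≤ n) : ¬ HasOneClassTiling a n := by
  rintro ⟨c, T, hT⟩
  refine refute_sound (inB := strip1 a) hT ?_ (cells1 a) [] ?_ ⟨∅, by simp, by simp⟩ ?_
  · rintro ⟨x, y⟩ hp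
    simp only [rect, Finset.mem_product, Finset.mem_Ico] at hp
    simp only [strip1, decide_eq_true_eq]
    omega
  · rintro ⟨x, y⟩ hp
    simp only [cells1, List.mem_flatMap, List.mem_map, List.mem_range, Prod.mk.injEq] at hp
    obtain ⟨j, hj, i, hi, rfl, rfl⟩ := hp
    simp only [rect, Finset.mem_product, Finset.mem_Ico]
    omega
  · rcases ha with rfl | rfl
    · exact (refute_strip1 c).1
    · exact (refute_strip1 c).2

lemma not_right {a n : ℕ} (ha : a = 1 ∨ a = 3) (hn : 6 ≤ n) : ¬ HasOneClassTiling n a := by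
  rintro ⟨c, T, hT⟩
  refine refute_sound (inB := strip2 a) hT ?_ (cells2 a) [] ?_ ⟨∅, by simp, by simp⟩ ?_
  · rintro ⟨x, y⟩ hp
    simp only [rect, Finset.mem_product, Finset.mem_Ico] at hp
    simp only [strip2, decide_eq_true_eq]
    omega
  · rintro ⟨x, y⟩ hp
    simp only [cells2, List.mem_flatMap, List.mem_map, List.mem_range, Prod.mk.injEq] at hp
    obtain ⟨j, hj, i, hi, rfl, rfl⟩ := hp
    simp only [rect, Finset.mem_product, Finset.mem_Ico]
    omega
  · rcases ha with rfl | rfl
    · exact (refute_strip2 c).1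
    · exact (refute_strip2 c).2

/-! ### The classification -/

lemma tileable_odd_8 {m n : ℕ} (hm : 5 ≤ m) (hodd : m % 2 = 1) (hn : 8 ∣ n) :
    Tileable (rect m n) := by
  obtain ⟨q, rfl⟩ := hn
  obtain ⟨j, rfl⟩ : ∃ j, m = 5 + 2 * j := ⟨(m - 5) / 2, by omega⟩
  refine tileable_add_left ?_ ?_
  · have := tileable_mul tileable_5_8 1 q
    simpa using this
  · have := tileable_mul tileable_2_4 j (2 * q)
    have h : 4 * (2 * q) = 8 * q := by ring
    rwa [h] at this

lemma tileable_8_odd {m n : ℕ} (hn : 5 ≤ n) (hodd : n % 2 = 1) (hm : 8 ∣ m) :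
    Tileable (rect m n) := by
  obtain ⟨q, rfl⟩ := hm
  obtain ⟨j, rfl⟩ : ∃ j, n = 5 + 2 * j := ⟨(n - 5) / 2, by omega⟩
  refine tileable_add_right ?_ ?_
  · have := tileable_mul tileable_8_5 q 1
    simpa using this
  · have := tileable_mul tileable_4_2 (2 * q) j
    have h : 4 * (2 * q) = 8 * q := by ring
    rwa [h] at this

/-- **Classification.**  An `m × n` rectangle (`m, n ≥ 1`) has a tiling by L-tetrominoes of the
same orientation if and only if one side is divisible by 4 and the other is even, or one side is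
divisible by 8 and the other is at least 5. -/
theorem result (m n : ℕ) (hm : 1 ≤ m) (hn : 1 ≤ n) :
    HasOneClassTiling m n ↔
      (4 ∣ m ∧ 2 ∣ n) ∨ (2 ∣ m ∧ 4 ∣ n) ∨ (8 ∣ m ∧ 5 ≤ n) ∨ (5 ≤ m ∧ 8 ∣ n) := by
  constructor
  · intro h
    have h8 := eight_dvd h
    have hm1 : ¬ (m = 1 ∨ m = 3) := by
      intro hm13
      have hn8 : 8 ∣ n := by
        rcases hm13 with rfl | rfl
        · simpa using h8
        · exact (Nat.Coprime.dvd_of_dvd_mul_left (by norm_num) h8)
      exact not_left hm13 (by have := Nat.le_of_dvd hn hn8; omega) h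
    have hn1 : ¬ (n = 1 ∨ n = 3) := by
      intro hn13
      have hm8 : 8 ∣ m := by
        rcases hn13 with rfl | rfl
        · simpa using h8
        · exact (Nat.Coprime.dvd_of_dvd_mul_right (by norm_num) h8)
      exact not_right hn13 (by have := Nat.le_of_dvd hm hm8; omega) h
    by_cases hmo : 2 ∣ m
    · by_cases hno : 2 ∣ n
      · obtain ⟨a, rfl⟩ := hmo
        obtain ⟨b, rfl⟩ := hno
        have : 2 ∣ a * b := by
          obtain ⟨q, hq⟩ := h8
          exact ⟨q, by nlinarith⟩
        rcases (Nat.prime_two.dvd_mul).1 this with ⟨q, rfl⟩ | ⟨q, rfl⟩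
        · left; exact ⟨⟨q, by ring⟩, ⟨b, rfl⟩⟩
        · right; left; exact ⟨⟨a, rfl⟩, ⟨q, by ring⟩⟩
      · right; right; left
        have hc : Nat.Coprime 8 n := by
          have : Nat.Coprime 2 n := (Nat.Prime.coprime_iff_not_dvd Nat.prime_two).2 hno
          exact Nat.Coprime.pow_left 3 this
        refine ⟨hc.dvd_of_dvd_mul_right h8, ?_⟩
        omega
    · right; right; right
      have hc : Nat.Coprime 8 m := by
        have : Nat.Coprime 2 m := (Nat.Prime.coprime_iff_not_dvd Nat.prime_two).2 hmo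
        exact Nat.Coprime.pow_left 3 this
      refine ⟨?_, hc.dvd_of_dvd_mul_left h8⟩
      omega
  · intro h
    have key : Tileable (rect m n) → HasOneClassTiling m n := fun ⟨T, hT⟩ => ⟨false, T, hT⟩
    apply key
    have hA : ∀ m n : ℕ, 4 ∣ m → 2 ∣ n → Tileable (rect m n) := by
      rintro m n ⟨a, rfl⟩ ⟨b, rfl⟩
      exact tileable_mul tileable_4_2 a b
    have hB : ∀ m n : ℕ, 2 ∣ m → 4 ∣ n → Tileable (rect m n) := by
      rintro m n ⟨a, rfl⟩ ⟨b, rfl⟩
      exact tileable_mul tileable_2_4 a b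
    rcases h with ⟨h1, h2⟩ | ⟨h1, h2⟩ | ⟨h1, h2⟩ | ⟨h1, h2⟩
    · exact hA m n h1 h2
    · exact hB m n h1 h2
    · rcases Nat.even_or_odd n with he | ho
      · exact hA m n (dvd_trans (by norm_num) h1) he.two_dvd
      · exact tileable_8_odd h2 (Nat.odd_iff.1 ho) h1
    · rcases Nat.even_or_odd m with he | ho
      · exact hB m n he.two_dvd (dvd_trans (by norm_num) h2)
      · exact tileable_odd_8 h1 (Nat.odd_iff.1 ho) h2

/-- Consequence: the criterion proposed in the problem is false (`m = 5`, `n = 8`). -/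
theorem proposed_criterion_false : ¬ ∀ m n : ℕ, 1 ≤ m → 1 ≤ n →
    (HasOneClassTiling m n ↔ (4 ∣ m ∧ 2 ∣ n) ∨ (2 ∣ m ∧ 4 ∣ n)) := by
  intro h
  have h1 := (h 5 8 (by norm_num) (by norm_num)).1
    ((result 5 8 (by norm_num) (by norm_num)).2 (by norm_num))
  revert h1; decide

end Pool.Agent.Results.MP_7a8221_co.OneClassRectangles
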